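import Pool.Agent.H64.CC.Weil

/-!
# The sign conjecture and the variational Tate conjecture in characteristic p: definitions
-/

set_option autoImplicit false

namespace Pool.Agent.H3.VTC

open Pool.Agent.H64.CC

variable {K : Type} [Field K] [CharZero K]

/-- the combinations with coefficients in `K` of the maps `H(X) → H(Y)` which are induced by cycles
on `X × Y` -/
def cycK (W : Weil K) {n : ℕ} (X Y : W.Var n) (r : ℤ) : Submodule K (W.Hom X Y) :=
  Submodule.span K (W.cyc X Y r)

/-- The data of the smooth projective families over curves, for a Weil cohomology `W`: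

* `Base n`: the curves `S` over `F n`, smooth and connected, with a point `0`, and with an
  embedding of the function field of `S` in `F (n + 1)`;
* `Grp S`: the fundamental group of `S`;
* `Fam S`: the smooth projective families `X → S` with connected fibres;
* `gen X`, over `F (n + 1)`: the geometric generic fibre of `X`; `fib X`: the fibre over `0`;
* `sp X`: the isomorphism of the cohomologies of these two fibres, and `cosp X`: its inverse;
* `rho X`: the action of the fundamental group (the monodromy) on the cohomology of `gen X`;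
* `Amp X`: the products with the classes of the relatively ample line bundles, on the cohomology
  of `gen X`. -/
structure Families (W : Weil K) where
  Base : ℕ → Type
  Grp : ∀ {n : ℕ}, Base n → Type
  Fam : ∀ {n : ℕ}, Base n → Type
  gen : ∀ {n : ℕ} {S : Base n}, Fam S → W.Var (n + 1)
  fib : ∀ {n : ℕ} {S : Base n}, Fam S → W.Var n
  sp : ∀ {n : ℕ} {S : Base n} (X : Fam S), W.Hom (gen X) (fib X)
  cosp : ∀ {n : ℕ} {S : Base n} (X : Fam S), W.Hom (fib X) (gen X)
  rho : ∀ {n : ℕ} {S : Base n} (X : Fam S), Grp S → W.Hom (gen X) (gen X)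
  Amp : ∀ {n : ℕ} {S : Base n} (X : Fam S), Set (W.Hom (gen X) (gen X))

namespace Families

variable {W : Weil K} (F : Families W)

section

variable {n : ℕ} {S : F.Base n} (X Y : F.Fam S)

/-- the class `f` on `X ×_S Y`, of degree `2r` as a map `H(X) → H(Y)`, hence of codimension
`r + dim X`, is flat: it is invariant under the monodromy -/
def Flat (r : ℤ) (f : W.Hom (F.gen X) (F.gen Y)) : Prop :=
  W.HasDeg r f ∧ ∀ g : F.Grp S, W.comp (F.rho Y g) f = W.comp f (F.rho X g)

/-- the class in the fibre over `0` of the flat class `f` -/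
def at0 (f : W.Hom (F.gen X) (F.gen Y)) : W.Hom (F.fib X) (F.fib Y) :=
  W.comp (W.comp (F.sp Y) f) (F.cosp X)

/-- The variational Tate conjecture for `X ×_S Y`: every flat class (of any codimension) which is
algebraic on the fibre over `0` is algebraic on the geometric generic fibre -/
def VT : Prop := ∀ (r : ℤ) (f : W.Hom (F.gen X) (F.gen Y)), F.Flat X Y r f →
  F.at0 X Y f ∈ W.cyc (F.fib X) (F.fib Y) r → f ∈ W.cyc (F.gen X) (F.gen Y) r

/-- The variational Tate conjecture with coefficients in `K` for `X ×_S Y`: every flat class which is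
on the fibre over `0` a combination of classes of cycles with coefficients in `K` is such a
combination on the geometric generic fibre -/
def VTK : Prop := ∀ (r : ℤ) (f : W.Hom (F.gen X) (F.gen Y)), F.Flat X Y r f →
  F.at0 X Y f ∈ cycK W (F.fib X) (F.fib Y) r → f ∈ cycK W (F.gen X) (F.gen Y) r

/-- `V`, over `F n`, is a smooth projective variety with a generically finite morphism `a` to a
compactification of `X ×_S Y`, hence with a morphism to a curve `S'` which is finite over a
compactification of `S`; `M` is the product with an ample class and `h` is the product with the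
class of a fibre of `V → S'`. The map `j` is the restriction of the cohomology of `V` to the
geometric generic fibre, followed by the push-forward to `X × Y`, divided by the degree; `k` is the
Gysin map from the fibre over `0` to `X ×_S Y` followed by the pull-back to `V`, divided by the
degree of `S'` over `S`. Both preserve the classes of cycles. The last property is the theorem of the
fixed part: a flat class is the restriction of a class `w` on `V`, and `h w` is the Gysin image of
its restriction to the fibre over `0` -/
structure Total (V : W.Var n) where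
  M : W.Hom V V
  h : W.Hom V V
  j : W.H V → W.Hom (F.gen X) (F.gen Y)
  k : W.Hom (F.fib X) (F.fib Y) → W.H V
  dim_eq : W.dim V = W.dim (F.gen X) + W.dim (F.gen Y) + 1
  fib : W.Fibred V M h
  j_lin : IsLinearMap K j
  k_lin : IsLinearMap K k
  j_alg : ∀ (r : ℤ) (u : W.H V), u ∈ W.alg V r →
    j u ∈ W.cyc (F.gen X) (F.gen Y) (r - W.dim (F.gen X))
  k_alg : ∀ (r : ℤ) (f : W.Hom (F.fib X) (F.fib Y)),
    f ∈ W.cyc (F.fib X) (F.fib Y) (r - W.dim (F.gen X)) → k f ∈ W.alg V (r + 1)
  j_zero : ∀ u : W.H V, W.ap h u = 0 → j u = 0
  fixed : ∀ (r : ℕ) (f : W.Hom (F.gen X) (F.gen Y)), F.Flat X Y ((r : ℤ) - W.dim (F.gen X)) f →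
    ∃ w, W.InH V (2 * r) w ∧ j w = f ∧ W.ap h w = k (F.at0 X Y f)

end

/-- The properties of the families: the specialisation isomorphisms, the monodromy, relatively ample
line bundles; every variety over `F (n + 1)`, with an ample line bundle, is the geometric generic
fibre of a family (`spread`), and for two families over the same curve the fibre product has a
smooth projective model in the sense of `Total` (de Jong, Deligne) -/
structure Theory : Prop where
  dim_fib : ∀ {n : ℕ} {S : F.Base n} (X : F.Fam S), W.dim (F.fib X) = W.dim (F.gen X)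
  left_inv : ∀ {n : ℕ} {S : F.Base n} (X : F.Fam S),
    W.comp (F.cosp X) (F.sp X) = W.id (F.gen X)
  right_inv : ∀ {n : ℕ} {S : F.Base n} (X : F.Fam S),
    W.comp (F.sp X) (F.cosp X) = W.id (F.fib X)
  sp_deg : ∀ {n : ℕ} {S : F.Base n} (X : F.Fam S), W.HasDeg 0 (F.sp X)
  rho_deg : ∀ {n : ℕ} {S : F.Base n} (X : F.Fam S) (g : F.Grp S),
    IsUnit (F.rho X g) ∧ W.HasDeg 0 (F.rho X g)
  amp : ∀ {n : ℕ} {S : F.Base n} (X : F.Fam S), (F.Amp X).Nonempty
  amp_gen : ∀ {n : ℕ} {S : F.Base n} (X : F.Fam S), ∀ L ∈ F.Amp X, L ∈ W.Lef (F.gen X)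
  amp_fib : ∀ {n : ℕ} {S : F.Base n} (X : F.Fam S), ∀ L ∈ F.Amp X,
    F.at0 X X L ∈ W.Lef (F.fib X)
  amp_rho : ∀ {n : ℕ} {S : F.Base n} (X : F.Fam S), ∀ L ∈ F.Amp X, ∀ g : F.Grp S,
    W.comp (F.rho X g) L = W.comp L (F.rho X g)
  spread : ∀ {n : ℕ} (X : W.Var (n + 1)) (L : W.Hom X X), L ∈ W.Lef X →
    ∃ (S : F.Base n) (Z : F.Fam S) (N : W.Hom (F.gen Z) (F.gen Z)), N ∈ F.Amp Z ∧
      (⟨F.gen Z, N⟩ : Σ Y : W.Var (n + 1), W.Hom Y Y) = ⟨X, L⟩
  total : ∀ {n : ℕ} {S : F.Base n} (X Y : F.Fam S), ∃ V : W.Var n, Nonempty (F.Total X Y V)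

/-- the variational Tate conjecture for the fibre products of families, of fibre dimension at most
`N`, over the curves over `F n` -/
def Variational (n N : ℕ) : Prop := ∀ (S : F.Base n) (X Y : F.Fam S),
  W.dim (F.gen X) + W.dim (F.gen Y) ≤ N → F.VT X Y

/-- the variational Tate conjecture with coefficients in `K` for the fibre products of families, of
fibre dimension at most `N`, over the curves over `F n` -/
def VariationalK (n N : ℕ) : Prop := ∀ (S : F.Base n) (X Y : F.Fam S),
  W.dim (F.gen X) + W.dim (F.gen Y) ≤ N → F.VTK X Y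

end Families

end Pool.Agent.H3.VTC
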