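import Pool.Agent.H3.VTC.Defs
import Pool.Agent.H16.CS.Fin
import Pool.Agent.H71.CS.TRP
import Pool.Agent.H4.CS.RAT
import Pool.Agent.H4.CS.DEN

/-!
# The sign conjecture with coefficients in K implies the sign conjecture
-/

set_option autoImplicit false

open Matrix

namespace Pool.Agent.H3.VTC

open Pool.Agent.H64.CC

variable {K : Type} [Field K] [CharZero K] (W : Weil K) (h : W.Theory) {n : ℕ} (X : W.Var n)

/-- the algebra of the correspondences of degree zero -/
def corr : Subalgebra ℚ (Matrix (Fin (W.rk X)) (Fin (W.rk X)) K) where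
  carrier := W.cyc X X 0
  mul_mem' := fun {a b} ha hb => by
    have h1 := h.calculus.comp_mem X X X 0 0 b hb a ha
    rw [add_zero] at h1
    exact h1
  add_mem' := fun ha hb => Submodule.add_mem _ ha hb
  algebraMap_mem' := fun q => by
    have h1 : q • (1 : Matrix (Fin (W.rk X)) (Fin (W.rk X)) K) ∈ W.cyc X X 0 :=
      Submodule.smul_mem _ q (h.calculus.one_mem X)
    rw [Algebra.algebraMap_eq_smul_one]
    exact h1

/-- the super trace, as a rational number -/
noncomputable def num : corr W h X →ₗ[ℚ] ℚ where
  toFun f := (h.calculus.trace_formula X f.1 f.2).choose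
  map_add' f g := by
    have h1 := (h.calculus.trace_formula X f.1 f.2).choose_spec
    have h2 := (h.calculus.trace_formula X g.1 g.2).choose_spec
    have h3 := (h.calculus.trace_formula X (f + g).1 (f + g).2).choose_spec
    have h4 : W.str (X := X) (f + g).1 = W.str (X := X) f.1 + W.str (X := X) g.1 := by
      show ∑ a, (-1 : K) ^ W.deg X a * (f.1 + g.1) a a = (∑ a, (-1 : K) ^ W.deg X a * f.1 a a) +
        ∑ a, (-1 : K) ^ W.deg X a * g.1 a a
      rw [← Finset.sum_add_distrib]
      exact Finset.sum_congr rfl fun a _ => by rw [Matrix.add_apply, mul_add]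
    rw [h1, h2, h3] at h4
    exact_mod_cast h4
  map_smul' q f := by
    have h1 := (h.calculus.trace_formula X f.1 f.2).choose_spec
    have h3 := (h.calculus.trace_formula X (q • f).1 (q • f).2).choose_spec
    have h4 : W.str (X := X) (q • f).1 = (q : K) * W.str (X := X) f.1 := by
      show ∑ a, (-1 : K) ^ W.deg X a * (q • f.1) a a =
        (q : K) * ∑ a, (-1 : K) ^ W.deg X a * f.1 a a
      rw [Finset.mul_sum]
      refine Finset.sum_congr rfl fun a _ => ?_
      rw [Matrix.smul_apply, Rat.smul_def]
      ring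
    rw [h1, h3] at h4
    rw [smul_eq_mul]
    exact_mod_cast h4

theorem num_eq (f : corr W h X) : ((num W h X f : ℚ) : K) = W.str (X := X) f.1 :=
  (h.calculus.trace_formula X f.1 f.2).choose_spec.symm

/-- the basis elements of degree `i` -/
abbrev Piece (i : ℕ) : Type := {a : Fin (W.rk X) // W.deg X a = i}

/-- the parts of a matrix on the pieces -/
noncomputable def parts :
    Matrix (Fin (W.rk X)) (Fin (W.rk X)) K →ₗ[K]
      (∀ i : Fin (2 * W.dim X + 1), Module.End K (Piece W X (i : ℕ) → K)) where
  toFun f i := Matrix.toLin' (f.submatrix Subtype.val Subtype.val)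
  map_add' f g := by
    funext i
    rw [Pi.add_apply, ← map_add]
    rfl
  map_smul' c f := by
    funext i
    rw [RingHom.id_apply, Pi.smul_apply, ← map_smul]
    rfl

theorem deg_zero (f : Matrix (Fin (W.rk X)) (Fin (W.rk X)) K) (hf : f ∈ W.cyc X X 0)
    (a b : Fin (W.rk X)) (hab : f a b ≠ 0) (h : W.Theory) : W.deg X a = W.deg X b := by
  have h1 := h.calculus.cyc_deg X X 0 f hf a b hab
  omega

theorem sum_piece (i : ℕ) (φ : Fin (W.rk X) → K) :
    ∑ c : Piece W X i, φ c.1 = ∑ c, if W.deg X c = i then φ c else 0 := by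
  rw [← Finset.sum_filter]
  exact (Finset.sum_subtype (p := fun c => W.deg X c = i) _ (by simp) φ).symm

/-- the action on the pieces -/
noncomputable def act : corr W h X →+*
    (∀ i : Fin (2 * W.dim X + 1), Module.End K (Piece W X (i : ℕ) → K)) where
  toFun f := parts W X f.1
  map_one' := by
    funext i
    show Matrix.toLin' ((1 : Matrix (Fin (W.rk X)) (Fin (W.rk X)) K).submatrix
      (Subtype.val : Piece W X (i : ℕ) → _) Subtype.val) = 1
    rw [Matrix.submatrix_one _ Subtype.val_injective, Matrix.toLin'_one]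
    rfl
  map_mul' f g := by
    funext i
    show Matrix.toLin' ((f.1 * g.1).submatrix (Subtype.val : Piece W X (i : ℕ) → _) Subtype.val) =
      Matrix.toLin' (f.1.submatrix (Subtype.val : Piece W X (i : ℕ) → _) Subtype.val) ∘ₗ
        Matrix.toLin' (g.1.submatrix (Subtype.val : Piece W X (i : ℕ) → _) Subtype.val)
    rw [← Matrix.toLin'_mul]
    refine congrArg _ ?_
    ext a b
    show ∑ c, f.1 a.1 c * g.1 c b.1 = ∑ c : Piece W X (i : ℕ), f.1 a.1 c.1 * g.1 c.1 b.1
    rw [sum_piece W X (i : ℕ) fun c => f.1 a.1 c * g.1 c b.1]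
    refine Finset.sum_congr rfl fun c _ => ?_
    split_ifs with hc
    · rfl
    · by_cases h0 : f.1 a.1 c = 0
      · rw [h0, zero_mul]
      · exact absurd ((deg_zero W X f.1 f.2 _ _ h0 h).symm.trans a.2) hc
  map_zero' := map_zero _
  map_add' f g := map_add _ _ _

/-- the realisation -/
noncomputable def real : Pool.Agent.H16.CS.Realisation (corr W h X) (num W h X) (W.dim X) K where
  H := fun i => Piece W X (i : ℕ) → K
  act := act W h X
  trace_formula := by
    intro f
    rw [num_eq]
    have h1 : ∀ i : Fin (2 * W.dim X + 1), LinearMap.trace K (Piece W X (i : ℕ) → K)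
        (act W h X f i) = ∑ c, if W.deg X c = (i : ℕ) then f.1 c c else 0 := by
      intro i
      show LinearMap.trace K (Piece W X (i : ℕ) → K) (Matrix.toLin'
        (f.1.submatrix (Subtype.val : Piece W X (i : ℕ) → _) Subtype.val)) = _
      rw [Matrix.trace_toLin'_eq]
      exact sum_piece W X (i : ℕ) fun c => f.1 c c
    rw [Finset.sum_congr rfl fun i _ => by rw [h1 i, Finset.mul_sum], Finset.sum_comm]
    show ∑ a, (-1 : K) ^ W.deg X a * f.1 a a = _
    refine Finset.sum_congr rfl fun a _ => ?_
    rw [Finset.sum_eq_single (⟨W.deg X a, Nat.lt_succ_of_le (h.calculus.deg_le X a)⟩ :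
      Fin (2 * W.dim X + 1))]
    · rw [if_pos rfl]
    · intro i _ hi
      rw [if_neg, mul_zero]
      exact fun h2 => hi (Fin.ext h2.symm)
    · exact fun h2 => absurd (Finset.mem_univ _) h2

theorem parts_even (i : Fin (2 * W.dim X + 1)) :
    parts W X (W.even X) i = (if Even (i : ℕ) then 1 else 0) := by
  show Matrix.toLin' ((W.even X).submatrix (Subtype.val : Piece W X (i : ℕ) → _)
    Subtype.val) = _
  have h1 : ∀ M : Matrix (Piece W X (i : ℕ)) (Piece W X (i : ℕ)) K,
      (W.even X).submatrix (Subtype.val : Piece W X (i : ℕ) → _) Subtype.val = M →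
      M = if Even (i : ℕ) then 1 else 0 := by
    rintro M rfl
    ext a b
    show (if a.1 = b.1 then (if Even (W.deg X a.1) then (1 : K) else 0) else 0) = _
    rw [a.2]
    by_cases hi : Even (i : ℕ)
    · rw [if_pos hi, if_pos hi, Matrix.one_apply]
      exact if_congr (Subtype.ext_iff.symm) rfl rfl
    · rw [if_neg hi, if_neg hi, ite_self]
      rfl
  rw [h1 _ rfl]
  split_ifs
  · rw [Matrix.toLin'_one]
    rfl
  · rw [map_zero]

include h in
/-- the descent -/
theorem cplus_of_cplusK (H : W.even X ∈ cycK W X X 0) : W.Cplus X := by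
  have h1 : (real W h X).CplusK := by
    have h2 : parts W X (W.even X) ∈ Submodule.span K (Set.range (act W h X)) := by
      have h3 := Submodule.mem_map_of_mem (f := parts W X) H
      rw [cycK, Submodule.map_span] at h3
      refine Submodule.span_mono ?_ h3
      rintro _ ⟨f, hf, rfl⟩
      exact ⟨⟨f, hf⟩, rfl⟩
    have h4 : (real W h X).pie = parts W X (W.even X) := by
      funext i
      exact (parts_even W X i).symm
    show (real W h X).pie ∈ Submodule.span K (Set.range (act W h X))
    rw [h4]
    exact h2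
  obtain ⟨f, hf⟩ := Pool.Agent.H16.CS.cop_of_span Pool.Agent.H4.CS.den (real W h X) h1
  obtain ⟨g, hg⟩ := Pool.Agent.H16.CS.cop (real W h X) Pool.Agent.H71.CS.trp
    Pool.Agent.H4.CS.rat f hf
  have h5 : g.1 = W.even X := by
    have h6 : parts W X g.1 = parts W X (W.even X) := by
      refine Eq.trans hg ?_
      funext i
      exact (parts_even W X i).symm
    ext a b
    by_cases hab : W.deg X a = W.deg X b
    · have h7 := congrFun h6 (⟨W.deg X a, Nat.lt_succ_of_le (h.calculus.deg_le X a)⟩ :
        Fin (2 * W.dim X + 1))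
      have h8 := Matrix.toLin'.injective h7
      exact congrFun (congrFun h8 ⟨a, rfl⟩) ⟨b, hab.symm⟩
    · have h9 : g.1 a b = 0 := by
        by_contra h0
        exact hab (deg_zero W X g.1 g.2 a b h0 h)
      rw [h9]
      show 0 = Matrix.diagonal (fun a => if Even (W.deg X a) then (1 : K) else 0) a b
      rw [Matrix.diagonal_apply_ne]
      rintro rfl
      exact hab rfl
  show W.even X ∈ W.cyc X X 0
  rw [← h5]
  exact g.2

end Pool.Agent.H3.VTC
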