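import Mathlib
import Pool.Agent.H64.CC.STP

/-!
# Inverses of the Lefschetz operators in a family
-/

set_option autoImplicit false

open Matrix

namespace Pool.Agent.H3.VTC

open Pool.Agent.H64.CC Pool.Agent.H64.CC.STP

variable {K : Type} [Field K] [CharZero K] (W : Theory K)

/-- the specialisation isomorphism -/
structure Sp {n : ℕ} (X : W.Var (n + 1)) (X₀ : W.Var n) where
  s : Matrix (Fin (W.rk X₀)) (Fin (W.rk X)) K
  s' : Matrix (Fin (W.rk X)) (Fin (W.rk X₀)) K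
  dim_eq : W.dim X₀ = W.dim X
  left_inv : s' * s = 1
  right_inv : s * s' = 1
  s_deg : W.HasDeg X X₀ 0 s

variable {W} {n : ℕ} {X : W.Var (n + 1)} {X₀ : W.Var n} (D : Sp W X X₀)

lemma Sp.s'_comm (j : ℕ) : D.s' * W.pj X₀ j = W.pj X j * D.s' := by
  have h := comm_pj W X X₀ D.s D.s_deg j
  calc D.s' * W.pj X₀ j = D.s' * W.pj X₀ j * (D.s * D.s') := by
        rw [D.right_inv, Matrix.mul_one]
    _ = D.s' * (W.pj X₀ j * D.s) * D.s' := by simp only [Matrix.mul_assoc]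
    _ = (D.s' * D.s) * W.pj X j * D.s' := by rw [h]; simp only [Matrix.mul_assoc]
    _ = W.pj X j * D.s' := by rw [D.left_inv, Matrix.one_mul]

lemma Sp.s'_deg : W.HasDeg X₀ X 0 D.s' := by
  intro b a h
  have h1 := congrFun (congrFun (D.s'_comm (W.deg X b)) b) a
  rw [mul_pj_apply, pj_mul_apply, if_pos rfl] at h1
  by_contra hc
  rw [if_neg (by intro h2; apply hc; rw [h2]; ring)] at h1
  exact h h1.symm

lemma Sp.s_pow (L : Matrix (Fin (W.rk X)) (Fin (W.rk X)) K) (k : ℕ) :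
    D.s * L ^ k = (D.s * L * D.s') ^ k * D.s := by
  induction k with
  | zero => simp
  | succ k ih =>
    rw [pow_succ, pow_succ, ← Matrix.mul_assoc, ih]
    simp only [Matrix.mul_assoc]
    rw [D.left_inv, Matrix.mul_one]

/-- the inverse of the Lefschetz operator, which is algebraic in the special fibre -/
theorem Sp.inv {L : Matrix (Fin (W.rk X)) (Fin (W.rk X)) K} (hL : L ∈ W.Lef X)
    (hL₀ : D.s * L * D.s' ∈ W.Lef X₀) (hC : W.C X₀) (hB : W.B X₀) {i : ℕ} (hi : i ≤ W.dim X) :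
    ∃ θ : Matrix (Fin (W.rk X)) (Fin (W.rk X)) K, W.HasDeg X X ((i : ℤ) - W.dim X) θ ∧
      θ * L ^ (W.dim X - i) = W.pj X i ∧ L ^ (W.dim X - i) * θ = W.pj X (2 * W.dim X - i) ∧
      D.s * θ * D.s' ∈ W.cyc X₀ X₀ ((i : ℤ) - W.dim X) ∧
      ∀ g : Matrix (Fin (W.rk X)) (Fin (W.rk X)) K, W.HasDeg X X 0 g → g * L = L * g →
        g * θ = θ * g := by
  obtain ⟨θ, hθ, hθL⟩ := hB _ hL₀ i (by rw [D.dim_eq]; exact hi)
  rw [D.dim_eq] at hθ hθL
  obtain ⟨L0, hL0⟩ : ∃ L0, L0 = D.s * L * D.s' := ⟨_, rfl⟩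
  rw [← hL0] at hθL hL₀
  obtain ⟨θ0, hθ0⟩ : ∃ θ0, θ0 = W.pj X₀ i * θ * W.pj X₀ (2 * W.dim X - i) := ⟨_, rfl⟩
  have hθ0mem : θ0 ∈ W.cyc X₀ X₀ ((i : ℤ) - W.dim X) := by
    have h1 := W.mul_mem _ _ _ _ _ _ hθ _ (hC i)
    have h2 := W.mul_mem _ _ _ _ _ _ (hC (2 * W.dim X - i)) _ h1
    have e : (0 : ℤ) + ((i : ℤ) - W.dim X + 0) = (i : ℤ) - W.dim X := by ring
    rw [e] at h2
    rw [hθ0]
    exact h2
  have hL0deg : W.HasDeg X₀ X₀ 1 L0 := W.cyc_deg _ _ _ _ (W.Lef_mem _ _ hL₀)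
  have hLdeg : W.HasDeg X X 1 L := W.cyc_deg _ _ _ _ (W.Lef_mem _ _ hL)
  have hθ0L : θ0 * L0 ^ (W.dim X - i) * W.pj X₀ i = W.pj X₀ i := by
    have h1 := pj_mul_deg W (hasDeg_pow W hL0deg (W.dim X - i)) i (2 * W.dim X - i) (by omega)
    calc θ0 * L0 ^ (W.dim X - i) * W.pj X₀ i =
        W.pj X₀ i * θ * (W.pj X₀ (2 * W.dim X - i) * L0 ^ (W.dim X - i) *
          W.pj X₀ i) := by
          rw [hθ0]
          simp only [Matrix.mul_assoc]
      _ = W.pj X₀ i * (θ * L0 ^ (W.dim X - i) * W.pj X₀ i) := by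
          rw [h1]
          simp only [Matrix.mul_assoc]
      _ = W.pj X₀ i := by rw [hθL, pj_mul_pj]
  obtain ⟨f, hf⟩ : ∃ f, f = D.s' * θ0 * D.s := ⟨_, rfl⟩
  have hsfs : D.s * f * D.s' = θ0 := by
    rw [hf]
    calc D.s * (D.s' * θ0 * D.s) * D.s' = (D.s * D.s') * θ0 * (D.s * D.s') := by
          simp only [Matrix.mul_assoc]
      _ = θ0 := by rw [D.right_inv, Matrix.one_mul, Matrix.mul_one]
  have hfdeg : W.HasDeg X X ((i : ℤ) - W.dim X) f := by
    have h1 := hasDeg_mul W D.s_deg (W.cyc_deg _ _ _ _ hθ0mem)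
    have h2 := hasDeg_mul W h1 D.s'_deg
    have e : (0 : ℤ) + ((i : ℤ) - W.dim X) + 0 = (i : ℤ) - W.dim X := by ring
    rw [e, ← Matrix.mul_assoc] at h2
    rw [hf]
    exact h2
  have hfL : f * L ^ (W.dim X - i) * W.pj X i = W.pj X i := by
    have h1 : D.s * L ^ (W.dim X - i) = L0 ^ (W.dim X - i) * D.s := by
      rw [hL0]
      exact D.s_pow L (W.dim X - i)
    have h2 := comm_pj W X X₀ D.s D.s_deg i
    calc f * L ^ (W.dim X - i) * W.pj X i =
        D.s' * θ0 * (D.s * L ^ (W.dim X - i)) * W.pj X i := by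
          rw [hf]
          simp only [Matrix.mul_assoc]
      _ = D.s' * (θ0 * L0 ^ (W.dim X - i)) * (D.s * W.pj X i) := by
          rw [h1]
          simp only [Matrix.mul_assoc]
      _ = D.s' * (θ0 * L0 ^ (W.dim X - i) * W.pj X₀ i) * D.s := by
          rw [← h2]
          simp only [Matrix.mul_assoc]
      _ = W.pj X i * (D.s' * D.s) := by
          rw [hθ0L, D.s'_comm i, Matrix.mul_assoc]
      _ = W.pj X i := by rw [D.left_inv, Matrix.mul_one]
  have hfQ : f * W.pj X (2 * W.dim X - i) = f := by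
    have h2 := comm_pj W X X₀ D.s D.s_deg (2 * W.dim X - i)
    calc f * W.pj X (2 * W.dim X - i) =
        D.s' * θ0 * (D.s * W.pj X (2 * W.dim X - i)) := by
          rw [hf]
          simp only [Matrix.mul_assoc]
      _ = D.s' * (W.pj X₀ i * θ * (W.pj X₀ (2 * W.dim X - i) *
          W.pj X₀ (2 * W.dim X - i))) * D.s := by
          rw [← h2, hθ0]
          simp only [Matrix.mul_assoc]
      _ = f := by rw [pj_mul_pj, hf, hθ0]
  have hLpj : W.pj X (2 * W.dim X - i) * L ^ (W.dim X - i) = L ^ (W.dim X - i) * W.pj X i := by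
    have h1 := pj_mul_deg W (hasDeg_pow W hLdeg (W.dim X - i)) i (2 * W.dim X - i) (by omega)
    rw [← h1]
    ext b a
    rw [mul_pj_apply, pj_mul_apply]
    by_cases hb : W.deg X b = 2 * W.dim X - i
    · by_cases ha : W.deg X a = i
      · rw [if_pos ha]
      · rw [if_neg ha, if_pos hb]
        by_contra h0
        have h2 := hasDeg_pow W hLdeg (W.dim X - i) b a h0
        omega
    · rw [if_neg hb]
      split_ifs <;> rfl
  have hfL' : f * L ^ (W.dim X - i) = W.pj X i := by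
    calc f * L ^ (W.dim X - i) = f * (W.pj X (2 * W.dim X - i) * L ^ (W.dim X - i)) := by
          rw [← Matrix.mul_assoc, hfQ]
      _ = f * L ^ (W.dim X - i) * W.pj X i := by rw [hLpj, Matrix.mul_assoc]
      _ = W.pj X i := hfL
  -- `L ^ (d - i) f` on `H^(2d - i)`
  have hLf : L ^ (W.dim X - i) * f = W.pj X (2 * W.dim X - i) := by
    have h3 : L ^ (W.dim X - i) * f = L ^ (W.dim X - i) * f * W.pj X (2 * W.dim X - i) := by
      rw [Matrix.mul_assoc, hfQ]
    refine Matrix.ext_of_mulVec_single fun a => ?_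
    obtain ⟨u, hu, hLu⟩ := W.hard_surj X L hL i hi
      (W.pj X (2 * W.dim X - i) *ᵥ Pi.single a 1) (fun b hb => by
        have := inH_pj W X (2 * W.dim X - i) (Pi.single a 1) b hb
        omega)
    rw [h3, ← Matrix.mulVec_mulVec, ← hLu, ← Matrix.mulVec_mulVec, Matrix.mulVec_mulVec (M := f),
      hfL', pj_mulVec W hu]
  refine ⟨f, hfdeg, hfL', hLf, by rw [hsfs]; exact hθ0mem, fun g hgd hgL => ?_⟩
  have hgp := comm_pj W X X g hgd
  have hgLk : ∀ k : ℕ, g * L ^ k = L ^ k * g := fun k => by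
    have : Commute g (L ^ k) := Commute.pow_right hgL k
    exact this
  -- `g f = (f L^k) g f = f g (L^k f) = f g`
  have hPf : W.pj X i * f = f := by
    have h2 := comm_pj W X X₀ D.s D.s_deg i
    calc W.pj X i * f = (W.pj X i * D.s') * θ0 * D.s := by
          rw [hf]
          simp only [Matrix.mul_assoc]
      _ = D.s' * (W.pj X₀ i * W.pj X₀ i * θ * W.pj X₀ (2 * W.dim X - i)) * D.s := by
          rw [← D.s'_comm i, hθ0]
          simp only [Matrix.mul_assoc]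
      _ = f := by rw [pj_mul_pj, hf, hθ0]
  calc g * f = g * (W.pj X i * f) := by rw [hPf]
    _ = W.pj X i * (g * f) := by rw [← Matrix.mul_assoc, ← hgp, Matrix.mul_assoc]
    _ = f * (L ^ (W.dim X - i) * (g * f)) := by rw [← hfL', Matrix.mul_assoc]
    _ = f * (g * (L ^ (W.dim X - i) * f)) := by
        rw [← Matrix.mul_assoc (L ^ (W.dim X - i)) g f, ← hgLk, Matrix.mul_assoc]
    _ = f * (W.pj X (2 * W.dim X - i) * g) := by rw [hLf, hgp]
    _ = f * g := by rw [← Matrix.mul_assoc, hfQ]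

end Pool.Agent.H3.VTC
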