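import Mathlib
import Pool.Agent.H3.VTC.Inv

/-!
# Reduction to classes of codimension at most half the dimension
-/

set_option autoImplicit false

open Matrix

namespace Pool.Agent.H3.VTC

open Pool.Agent.H64.CC Pool.Agent.H64.CC.STP

variable {K : Type} [Field K] [CharZero K] {W : Theory K}

theorem pw_mem {n : ℕ} {X : W.Var n} {L : Matrix (Fin (W.rk X)) (Fin (W.rk X)) K}
    (hL : L ∈ W.cyc X X 1) (k : ℕ) : L ^ k ∈ W.cyc X X (k : ℤ) := by
  induction k with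
  | zero =>
    rw [pow_zero]
    exact W.one_mem X
  | succ k ih =>
    rw [pow_succ]
    have h := W.mul_mem X X X 1 k L hL (L ^ k) ih
    have e : (1 : ℤ) + (k : ℤ) = ((k + 1 : ℕ) : ℤ) := by push_cast; ring
    rw [e] at h
    exact h

/-- a map is the sum of its restrictions to the `Hⁱ` -/
theorem sum_pj {n m : ℕ} {X : W.Var n} (f : Matrix (Fin m) (Fin (W.rk X)) K) :
    f = ∑ i ∈ Finset.range (2 * W.dim X + 1), f * W.pj X i := by
  ext b a
  rw [Matrix.sum_apply, Finset.sum_eq_single (W.deg X a)]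
  · rw [mul_pj_apply, if_pos rfl]
  · intro i _ hi
    rw [mul_pj_apply, if_neg (Ne.symm hi)]
  · intro h
    exact absurd (Finset.mem_range.2 (Nat.lt_succ_of_le (W.deg_le X a))) h

theorem hasDeg_one {n : ℕ} (X : W.Var n) :
    W.HasDeg X X 0 (1 : Matrix (Fin (W.rk X)) (Fin (W.rk X)) K) :=
  W.cyc_deg X X 0 1 (W.one_mem X)

section

variable {n : ℕ} {X Y : W.Var (n + 1)} {X₀ Y₀ : W.Var n} (D : Sp W X X₀) (E : Sp W Y Y₀)

/-- the inverse in the source -/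
theorem Sp.source {L : Matrix (Fin (W.rk X)) (Fin (W.rk X)) K} (hL : L ∈ W.Lef X)
    (hL₀ : D.s * L * D.s' ∈ W.Lef X₀) (hC : W.C X₀) (hB : W.B X₀) (i : ℕ) :
    ∃ θ : Matrix (Fin (W.rk X)) (Fin (W.rk X)) K,
      W.HasDeg X X (-((W.dim X - i : ℕ) : ℤ)) θ ∧
      W.pj X i * (θ * L ^ (W.dim X - i)) = W.pj X i ∧
      D.s * θ * D.s' ∈ W.cyc X₀ X₀ (-((W.dim X - i : ℕ) : ℤ)) ∧
      ∀ g : Matrix (Fin (W.rk X)) (Fin (W.rk X)) K, W.HasDeg X X 0 g → g * L = L * g →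
        g * θ = θ * g := by
  by_cases hi : i ≤ W.dim X
  · obtain ⟨θ, h1, h2, -, h4, h5⟩ := D.inv hL hL₀ hC hB hi
    have e : (i : ℤ) - W.dim X = -((W.dim X - i : ℕ) : ℤ) := by omega
    rw [e] at h1 h4
    exact ⟨θ, h1, by rw [h2, pj_mul_pj], h4, h5⟩
  · have e : W.dim X - i = 0 := by omega
    rw [e]
    refine ⟨1, by simpa using hasDeg_one X, by simp, ?_, fun g _ _ => by simp⟩
    rw [Matrix.mul_one, D.right_inv]
    simpa using W.one_mem X₀

/-- the inverse in the target -/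
theorem Sp.target {L : Matrix (Fin (W.rk X)) (Fin (W.rk X)) K} (hL : L ∈ W.Lef X)
    (hL₀ : D.s * L * D.s' ∈ W.Lef X₀) (hC : W.C X₀) (hB : W.B X₀) (j : ℕ)
    (hj : j ≤ 2 * W.dim X) :
    ∃ θ : Matrix (Fin (W.rk X)) (Fin (W.rk X)) K,
      W.HasDeg X X (-((j - W.dim X : ℕ) : ℤ)) θ ∧
      (L ^ (j - W.dim X) * θ) * W.pj X j = W.pj X j ∧
      D.s * θ * D.s' ∈ W.cyc X₀ X₀ (-((j - W.dim X : ℕ) : ℤ)) ∧
      ∀ g : Matrix (Fin (W.rk X)) (Fin (W.rk X)) K, W.HasDeg X X 0 g → g * L = L * g →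
        g * θ = θ * g := by
  by_cases hi : W.dim X ≤ j
  · obtain ⟨θ, h1, -, h3, h4, h5⟩ := D.inv hL hL₀ hC hB (i := 2 * W.dim X - j) (by omega)
    have e : ((2 * W.dim X - j : ℕ) : ℤ) - W.dim X = -((j - W.dim X : ℕ) : ℤ) := by omega
    have e2 : W.dim X - (2 * W.dim X - j) = j - W.dim X := by omega
    have e3 : 2 * W.dim X - (2 * W.dim X - j) = j := by omega
    rw [e] at h1 h4
    rw [e2, e3] at h3
    exact ⟨θ, h1, by rw [h3, pj_mul_pj], h4, h5⟩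
  · have e : j - W.dim X = 0 := by omega
    rw [e]
    refine ⟨1, by simpa using hasDeg_one X, by simp, ?_, fun g _ _ => by simp⟩
    rw [Matrix.mul_one, D.right_inv]
    simpa using W.one_mem X₀

/-- the spaces `A r` of maps `H(X) → H(Y)` are stable under the compositions with
correspondences -/
structure Stable {m : ℕ} (U V : W.Var m) (A : ℤ → Submodule ℚ (Matrix (Fin (W.rk V)) (Fin (W.rk U)) K)) :
    Prop where
  left : ∀ (r s : ℤ), ∀ g ∈ W.cyc V V s, ∀ f ∈ A r, g * f ∈ A (r + s)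
  right : ∀ (r s : ℤ), ∀ g ∈ W.cyc U U s, ∀ f ∈ A r, f * g ∈ A (s + r)

/-- reduction to classes of codimension at most half the dimension -/
theorem reduce (A : ℤ → Submodule ℚ (Matrix (Fin (W.rk Y)) (Fin (W.rk X)) K))
    (A₀ : ℤ → Submodule ℚ (Matrix (Fin (W.rk Y₀)) (Fin (W.rk X₀)) K)) (hA : Stable X Y A)
    (hA₀ : Stable X₀ Y₀ A₀) {G : Type} (ρ : G → Matrix (Fin (W.rk X)) (Fin (W.rk X)) K)
    (σ : G → Matrix (Fin (W.rk Y)) (Fin (W.rk Y)) K) (hρ : ∀ g, W.HasDeg X X 0 (ρ g))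
    (hσ : ∀ g, W.HasDeg Y Y 0 (σ g)) {L : Matrix (Fin (W.rk X)) (Fin (W.rk X)) K}
    {M : Matrix (Fin (W.rk Y)) (Fin (W.rk Y)) K} (hL : L ∈ W.Lef X) (hM : M ∈ W.Lef Y)
    (hL₀ : D.s * L * D.s' ∈ W.Lef X₀) (hM₀ : E.s * M * E.s' ∈ W.Lef Y₀)
    (hρL : ∀ g, ρ g * L = L * ρ g) (hσM : ∀ g, σ g * M = M * σ g) (hCX : W.C X₀)
    (hBX : W.B X₀) (hCY : W.C Y₀) (hBY : W.B Y₀)
    (hlift : ∀ c : ℕ, 2 * c ≤ W.dim X + W.dim Y → ∀ f, W.HasDeg X Y ((c : ℤ) - W.dim X) f →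
      (∀ g, σ g * f = f * ρ g) → E.s * f * D.s' ∈ A₀ ((c : ℤ) - W.dim X) →
      f ∈ A ((c : ℤ) - W.dim X)) (r : ℤ)
    (f : Matrix (Fin (W.rk Y)) (Fin (W.rk X)) K) (hf : W.HasDeg X Y r f)
    (hg : ∀ g, σ g * f = f * ρ g) (h0 : E.s * f * D.s' ∈ A₀ r) : f ∈ A r := by
  rw [sum_pj f]
  refine Submodule.sum_mem _ fun i hi => ?_
  rw [Finset.mem_range] at hi
  obtain ⟨p, hp⟩ : ∃ p, p = f * W.pj X i := ⟨_, rfl⟩
  rw [← hp]
  by_cases hp0 : p = 0
  · rw [hp0]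
    exact Submodule.zero_mem _
  obtain ⟨j, hj, hj2⟩ : ∃ j : ℕ, (j : ℤ) = i + 2 * r ∧ j ≤ 2 * W.dim Y := by
    by_contra hc
    push Not at hc
    apply hp0
    ext b a
    rw [hp, mul_pj_apply, Matrix.zero_apply]
    split_ifs with ha
    · by_contra hba
      have h1 := hf b a hba
      rw [ha] at h1
      have h2 := W.deg_le Y b
      have h3 := hc _ h1
      omega
    · rfl
  have hpj : W.pj Y j * p = p := by
    ext b a
    rw [pj_mul_apply, hp, mul_pj_apply]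
    by_cases ha : W.deg X a = i
    · rw [if_pos ha]
      by_cases hba : f b a = 0
      · rw [hba, ite_self]
      · have h1 := hf b a hba
        rw [ha, ← hj] at h1
        rw [if_pos (by exact_mod_cast h1)]
    · rw [if_neg ha, ite_self]
  have hpi : p * W.pj X i = p := by
    rw [hp, Matrix.mul_assoc, pj_mul_pj]
  have hpg : ∀ g, σ g * p = p * ρ g := by
    intro g
    rw [hp, ← Matrix.mul_assoc, hg, Matrix.mul_assoc, Matrix.mul_assoc, comm_pj W X X _ (hρ g) i]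
  have hpd : W.HasDeg X Y r p := by
    intro b a hba
    rw [hp, mul_pj_apply] at hba
    split_ifs at hba with ha
    · exact hf b a hba
    · exact absurd rfl hba
  have hps : E.s * p * D.s' ∈ A₀ r := by
    have h1 := hA₀.right _ _ _ (hCX i) _ h0
    rw [zero_add] at h1
    have e : E.s * f * D.s' * W.pj X₀ i = E.s * p * D.s' := by
      rw [hp, Matrix.mul_assoc, D.s'_comm i]
      simp only [Matrix.mul_assoc]
    rw [← e]
    exact h1
  obtain ⟨θ, t1, t2, t3, t4⟩ := D.source hL hL₀ hCX hBX i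
  obtain ⟨η, u1, u2, u3, u4⟩ := E.target hM hM₀ hCY hBY j hj2
  obtain ⟨k, hk⟩ : ∃ k, k = W.dim X - i := ⟨_, rfl⟩
  obtain ⟨l, hl⟩ : ∃ l, l = j - W.dim Y := ⟨_, rfl⟩
  rw [← hk] at t1 t2 t3
  rw [← hl] at u1 u2 u3
  obtain ⟨q, hq⟩ : ∃ q, q = η * p * θ := ⟨_, rfl⟩
  have hpq : p = M ^ l * q * L ^ k := by
    have h1 : p * (θ * L ^ k) = p := by
      rw [← hpi, Matrix.mul_assoc p, t2]
    have h2 : (M ^ l * η) * p = p := by
      rw [← hpj, ← Matrix.mul_assoc, u2]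
    rw [hq]
    calc p = M ^ l * η * (p * (θ * L ^ k)) := by rw [h1, h2]
      _ = M ^ l * (η * p * θ) * L ^ k := by simp only [Matrix.mul_assoc]
  obtain ⟨c, hc⟩ : ∃ c : ℕ, (c : ℤ) - W.dim X = r - k - l :=
    ⟨(r - k - l + W.dim X).toNat, by omega⟩
  have hqd : W.HasDeg X Y ((c : ℤ) - W.dim X) q := by
    have h1 := hasDeg_mul W t1 (hasDeg_mul W hpd u1)
    have e : -(k : ℤ) + (r + -(l : ℤ)) = (c : ℤ) - W.dim X := by rw [hc]; ring
    rw [e] at h1
    rw [hq]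
    exact h1
  have hqg : ∀ g, σ g * q = q * ρ g := by
    intro g
    rw [hq]
    calc σ g * (η * p * θ) = (σ g * η) * p * θ := by simp only [Matrix.mul_assoc]
      _ = η * (σ g * p) * θ := by rw [u4 _ (hσ g) (hσM g)]; simp only [Matrix.mul_assoc]
      _ = η * p * (ρ g * θ) := by rw [hpg]; simp only [Matrix.mul_assoc]
      _ = η * p * θ * ρ g := by rw [t4 _ (hρ g) (hρL g)]; simp only [Matrix.mul_assoc]
  have hqs : E.s * q * D.s' ∈ A₀ ((c : ℤ) - W.dim X) := by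
    have h1 := hA₀.right _ _ _ t3 _ (hA₀.left _ _ _ u3 _ hps)
    have e : -(k : ℤ) + (r + -(l : ℤ)) = (c : ℤ) - W.dim X := by rw [hc]; ring
    rw [e] at h1
    have e2 : E.s * η * E.s' * (E.s * p * D.s') * (D.s * θ * D.s') = E.s * q * D.s' := by
      rw [hq]
      calc E.s * η * E.s' * (E.s * p * D.s') * (D.s * θ * D.s') =
          E.s * η * (E.s' * E.s) * p * (D.s' * D.s) * θ * D.s' := by
            simp only [Matrix.mul_assoc]
        _ = E.s * (η * p * θ) * D.s' := by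
            rw [D.left_inv, E.left_inv]
            simp only [Matrix.mul_assoc, Matrix.mul_one]
    rw [← e2]
    exact h1
  have hq2 := hlift c (by omega) q hqd hqg hqs
  rw [hc] at hq2
  have h1 := hA.right _ _ _ (pw_mem (W.Lef_mem X L hL) k) _
    (hA.left _ _ _ (pw_mem (W.Lef_mem Y M hM) l) _ hq2)
  have e : (k : ℤ) + (r - k - l + l) = r := by ring
  rw [e] at h1
  rw [hpq]
  exact h1

end

end Pool.Agent.H3.VTC
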