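import Pool.Agent.H3.VTC.Defs
import Pool.Agent.H3.VTC.Reduce
import Pool.Agent.H64.CC.Bridge

/-!
# The lifting of flat classes
-/

set_option autoImplicit false

open Matrix

namespace Pool.Agent.H3.VTC

open Pool.Agent.H64.CC Pool.Agent.H64.CC.STP

variable {K : Type} [Field K] [CharZero K] {W : Weil K} (h : W.Theory) {F : Families W}
  (hF : F.Theory)

/-- the specialisation isomorphism of a family -/
def spOf {n : ℕ} {S : F.Base n} (X : F.Fam S) : Sp (toTheory W h) (F.gen X) (F.fib X) where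
  s := F.sp X
  s' := F.cosp X
  dim_eq := hF.dim_fib X
  left_inv := hF.left_inv X
  right_inv := hF.right_inv X
  s_deg := hF.sp_deg X

/-- the combinations of the classes of cycles with coefficients in `K`, as a rational vector space -/
def kAlg (W : Weil K) {n : ℕ} (X : W.Var n) (r : ℤ) : Submodule ℚ (W.H X) :=
  (Submodule.span K (W.alg X r : Set (W.H X))).restrictScalars ℚ

include h in
theorem kAlg_deg {n : ℕ} (X : W.Var n) (r : ℤ) (v : W.H X) (hv : v ∈ kAlg W X r) :
    ∀ a, v a ≠ 0 → (W.deg X a : ℤ) = 2 * r := by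
  refine Submodule.span_induction (p := fun v _ => ∀ a, v a ≠ 0 → (W.deg X a : ℤ) = 2 * r)
    ?_ ?_ ?_ ?_ hv
  · exact fun v hv => h.calculus.alg_deg X r v hv
  · exact fun a ha => absurd rfl ha
  · intro v w _ _ h1 h2 a ha
    by_cases hva : v a = 0
    · refine h2 a fun hw => ha ?_
      rw [Pi.add_apply, hva, hw, add_zero]
    · exact h1 a hva
  · intro c v _ h1 a ha
    refine h1 a fun hv => ha ?_
    rw [Pi.smul_apply, hv, smul_zero]

include h in
theorem kAlg_act {n : ℕ} (X Y : W.Var n) (r s : ℤ) (f : W.Hom X Y) (hf : f ∈ W.cyc X Y r)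
    (v : W.H X) (hv : v ∈ kAlg W X s) : W.ap f v ∈ kAlg W Y (s + r) := by
  refine Submodule.span_induction (p := fun v _ => W.ap f v ∈ kAlg W Y (s + r)) ?_ ?_ ?_ ?_ hv
  · exact fun v hv => Submodule.subset_span (h.calculus.ap_mem X Y r s f hf v hv)
  · show f *ᵥ (0 : W.H X) ∈ _
    rw [Matrix.mulVec_zero]
    exact Submodule.zero_mem _
  · intro v w _ _ h1 h2
    show f *ᵥ (v + w) ∈ _
    rw [Matrix.mulVec_add]
    exact Submodule.add_mem _ h1 h2
  · intro c v _ h1
    show f *ᵥ (c • v) ∈ _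
    rw [Matrix.mulVec_smul]
    exact Submodule.smul_mem (Submodule.span K (W.alg Y (s + r) : Set (W.H Y))) c h1

/-- the same theory, where the classes of cycles are replaced by their combinations with
coefficients in `K` -/
def kTheory : Theory K :=
  { toTheory W h with
    alg := fun {_} X r => kAlg W X r
    alg_deg := fun X r v hv => kAlg_deg h X r v hv
    act_mem := fun X Y r s f hf v hv => kAlg_act h X Y r s f hf v hv }

include h in
/-- flat classes of codimension at most half the dimension -/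
theorem lift {n : ℕ} {S : F.Base n} (X Y : F.Fam S) {V : W.Var n} (T : F.Total X Y V)
    (hC : W.C V) (hB : W.B V) (c : ℕ) (hc : 2 * c ≤ W.dim (F.gen X) + W.dim (F.gen Y))
    (f : W.Hom (F.gen X) (F.gen Y)) (hf : F.Flat X Y ((c : ℤ) - W.dim (F.gen X)) f)
    (h0 : F.at0 X Y f ∈ W.cyc (F.fib X) (F.fib Y) ((c : ℤ) - W.dim (F.gen X))) :
    f ∈ W.cyc (F.gen X) (F.gen Y) ((c : ℤ) - W.dim (F.gen X)) := by
  obtain ⟨w, hw, hjw, hhw⟩ := T.fixed c f hf
  have h1 : W.ap T.h w ∈ W.alg V ((c : ℤ) + 1) := by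
    rw [hhw]
    exact T.k_alg c _ h0
  obtain ⟨u, hu, hhu⟩ : ∃ u : W.H V, u ∈ W.alg V (c : ℤ) ∧ W.ap T.h u = W.ap T.h w :=
    LEM.pf_LEM tRAT K (toTheory W h) n V hC ((b_iff W h V).2 hB) T.M
      T.fib.ample T.h T.fib.mem T.fib.comm T.fib.sq_eq
      ⟨T.fib.rel.inj, T.fib.rel.surj, T.fib.rel.mid⟩ c
      (by
        have h2 : W.dim V = W.dim (F.gen X) + W.dim (F.gen Y) + 1 := T.dim_eq
        show 2 * c < W.dim V
        omega) w hw h1
  have h2 : T.j (w - u) = 0 := by
    refine T.j_zero _ ?_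
    show T.h *ᵥ (w - u) = 0
    rw [Matrix.mulVec_sub]
    exact sub_eq_zero.2 hhu.symm
  rw [T.j_lin.map_sub, sub_eq_zero, hjw] at h2
  rw [h2]
  exact T.j_alg c u hu

include h in
/-- flat classes of codimension at most half the dimension, with coefficients in `K` -/
theorem liftK {n : ℕ} {S : F.Base n} (X Y : F.Fam S) {V : W.Var n} (T : F.Total X Y V)
    (hC : W.C V) (hB : W.B V) (c : ℕ) (hc : 2 * c ≤ W.dim (F.gen X) + W.dim (F.gen Y))
    (f : W.Hom (F.gen X) (F.gen Y)) (hf : F.Flat X Y ((c : ℤ) - W.dim (F.gen X)) f)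
    (h0 : F.at0 X Y f ∈ cycK W (F.fib X) (F.fib Y) ((c : ℤ) - W.dim (F.gen X))) :
    f ∈ cycK W (F.gen X) (F.gen Y) ((c : ℤ) - W.dim (F.gen X)) := by
  obtain ⟨w, hw, hjw, hhw⟩ := T.fixed c f hf
  have h1 : W.ap T.h w ∈ kAlg W V ((c : ℤ) + 1) := by
    rw [hhw]
    refine Submodule.span_induction (p := fun g _ => T.k g ∈ kAlg W V ((c : ℤ) + 1)) ?_ ?_ ?_ ?_ h0
    · exact fun g hg => Submodule.subset_span (T.k_alg c g hg)
    · rw [T.k_lin.map_zero]
      exact Submodule.zero_mem _
    · intro g g' _ _ h1 h2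
      rw [T.k_lin.map_add]
      exact Submodule.add_mem _ h1 h2
    · intro a g _ h1
      rw [T.k_lin.map_smul]
      exact Submodule.smul_mem _ a h1
  obtain ⟨u, hu, hhu⟩ : ∃ u : W.H V, u ∈ kAlg W V (c : ℤ) ∧ W.ap T.h u = W.ap T.h w :=
    LEM.pf_LEM tRAT K (kTheory h) n V hC ((b_iff W h V).2 hB) T.M
      T.fib.ample T.h T.fib.mem T.fib.comm T.fib.sq_eq
      ⟨T.fib.rel.inj, T.fib.rel.surj, T.fib.rel.mid⟩ c
      (by
        have h2 : W.dim V = W.dim (F.gen X) + W.dim (F.gen Y) + 1 := T.dim_eq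
        show 2 * c < W.dim V
        omega) w hw h1
  have h2 : T.j (w - u) = 0 := by
    refine T.j_zero _ ?_
    show T.h *ᵥ (w - u) = 0
    rw [Matrix.mulVec_sub]
    exact sub_eq_zero.2 hhu.symm
  rw [T.j_lin.map_sub, sub_eq_zero, hjw] at h2
  rw [h2]
  refine Submodule.span_induction
    (p := fun u _ => T.j u ∈ cycK W (F.gen X) (F.gen Y) ((c : ℤ) - W.dim (F.gen X))) ?_ ?_ ?_ ?_ hu
  · exact fun u hu => Submodule.subset_span (T.j_alg c u hu)
  · rw [T.j_lin.map_zero]
    exact Submodule.zero_mem _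
  · intro u v _ _ h1 h2
    rw [T.j_lin.map_add]
    exact Submodule.add_mem _ h1 h2
  · intro a u _ h1
    rw [T.j_lin.map_smul]
    exact Submodule.smul_mem _ a h1

/-- the classes of cycles are stable -/
theorem stable_cyc {n : ℕ} (X Y : W.Var n) :
    Stable (W := toTheory W h) X Y (fun r => W.cyc X Y r) where
  left := fun r s g hg f hf => h.calculus.comp_mem X Y Y r s f hf g hg
  right := fun r s g hg f hf => h.calculus.comp_mem X X Y s r g hg f hf

include h in
theorem cycK_left {n : ℕ} (X Y : W.Var n) (r s : ℤ) (g : W.Hom Y Y) (hg : g ∈ W.cyc Y Y s)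
    (f : W.Hom X Y) (hf : f ∈ cycK W X Y r) : W.comp g f ∈ cycK W X Y (r + s) := by
  refine Submodule.span_induction (p := fun (f : W.Hom X Y) _ => W.comp g f ∈
    cycK W X Y (r + s)) ?_ ?_ ?_ ?_ hf
  · exact fun f hf => Submodule.subset_span (h.calculus.comp_mem X Y Y r s f hf g hg)
  · show g * (0 : W.Hom X Y) ∈ _
    rw [Matrix.mul_zero]
    exact Submodule.zero_mem _
  · intro u v _ _ h1 h2
    show g * (u + v) ∈ _
    rw [Matrix.mul_add]
    exact Submodule.add_mem _ h1 h2
  · intro a u _ h1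
    show g * (a • u) ∈ _
    rw [Matrix.mul_smul]
    exact Submodule.smul_mem _ a h1

include h in
theorem cycK_right {n : ℕ} (X Y : W.Var n) (r s : ℤ) (g : W.Hom X X) (hg : g ∈ W.cyc X X s)
    (f : W.Hom X Y) (hf : f ∈ cycK W X Y r) : W.comp f g ∈ cycK W X Y (s + r) := by
  refine Submodule.span_induction (p := fun (f : W.Hom X Y) _ => W.comp f g ∈
    cycK W X Y (s + r)) ?_ ?_ ?_ ?_ hf
  · exact fun f hf => Submodule.subset_span (h.calculus.comp_mem X X Y s r g hg f hf)
  · show (0 : W.Hom X Y) * g ∈ _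
    rw [Matrix.zero_mul]
    exact Submodule.zero_mem _
  · intro u v _ _ h1 h2
    show (u + v) * g ∈ _
    rw [Matrix.add_mul]
    exact Submodule.add_mem _ h1 h2
  · intro a u _ h1
    show (a • u) * g ∈ _
    rw [Matrix.smul_mul]
    exact Submodule.smul_mem _ a h1

/-- the combinations with coefficients in `K` are stable -/
theorem stable_cycK {n : ℕ} (X Y : W.Var n) :
    Stable (W := toTheory W h) X Y (fun r => (cycK W X Y r).restrictScalars ℚ) where
  left := fun r s g hg f hf => cycK_left h X Y r s g hg f hf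
  right := fun r s g hg f hf => cycK_right h X Y r s g hg f hf

include h hF in
/-- the variational Tate conjecture for two families, from `B` and `C` for the fibres over `0` and
for one total space -/
theorem vt_of_total {n : ℕ} {S : F.Base n} (X Y : F.Fam S) {V : W.Var n}
    (hT : Nonempty (F.Total X Y V)) (hX : W.C (F.fib X) ∧ W.B (F.fib X))
    (hY : W.C (F.fib Y) ∧ W.B (F.fib Y)) (hV : W.C V ∧ W.B V) :
    F.VT X Y ∧ F.VTK X Y := by
  obtain ⟨T⟩ := hT
  obtain ⟨L, hL⟩ := hF.amp X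
  obtain ⟨M, hM⟩ := hF.amp Y
  obtain ⟨hCV, hBV⟩ := hV
  constructor
  · intro r f hf h0
    exact reduce (spOf h hF X) (spOf h hF Y) (fun r => W.cyc (F.gen X) (F.gen Y) r)
      (fun r => W.cyc (F.fib X) (F.fib Y) r) (stable_cyc h _ _) (stable_cyc h _ _) (F.rho X)
      (F.rho Y) (fun g => (hF.rho_deg X g).2) (fun g => (hF.rho_deg Y g).2) (hF.amp_gen X L hL)
      (hF.amp_gen Y M hM) (hF.amp_fib X L hL) (hF.amp_fib Y M hM) (hF.amp_rho X L hL)
      (hF.amp_rho Y M hM) hX.1 ((b_iff W h _).2 hX.2) hY.1 ((b_iff W h _).2 hY.2)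
      (fun c hc f hfd hfg hfs => lift h X Y T hCV hBV c hc f ⟨hfd, hfg⟩ hfs) r f hf.1 hf.2 h0
  · intro r f hf h0
    exact reduce (spOf h hF X) (spOf h hF Y)
      (fun r => (cycK W (F.gen X) (F.gen Y) r).restrictScalars ℚ)
      (fun r => (cycK W (F.fib X) (F.fib Y) r).restrictScalars ℚ) (stable_cycK h _ _)
      (stable_cycK h _ _) (F.rho X)
      (F.rho Y) (fun g => (hF.rho_deg X g).2) (fun g => (hF.rho_deg Y g).2) (hF.amp_gen X L hL)
      (hF.amp_gen Y M hM) (hF.amp_fib X L hL) (hF.amp_fib Y M hM) (hF.amp_rho X L hL)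
      (hF.amp_rho Y M hM) hX.1 ((b_iff W h _).2 hX.2) hY.1 ((b_iff W h _).2 hY.2)
      (fun c hc f hfd hfg hfs => liftK h X Y T hCV hBV c hc f ⟨hfd, hfg⟩ hfs) r f hf.1 hf.2 h0

include h hF in
/-- the variational Tate conjecture for families of bounded dimension -/
theorem variational_of_b (n N : ℕ)
    (hV : ∀ V : W.Var n, W.dim V ≤ N + 1 → W.C V ∧ W.B V) :
    F.Variational n N ∧ F.VariationalK n N := by
  have key : ∀ (S : F.Base n) (X Y : F.Fam S), W.dim (F.gen X) + W.dim (F.gen Y) ≤ N →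
      F.VT X Y ∧ F.VTK X Y := by
    intro S X Y hN
    obtain ⟨V, hT⟩ := hF.total X Y
    refine vt_of_total h hF X Y hT (hV _ ?_) (hV _ ?_) (hV V ?_)
    · rw [hF.dim_fib X]
      omega
    · rw [hF.dim_fib Y]
      omega
    · obtain ⟨T⟩ := hT
      have h1 : W.dim V = W.dim (F.gen X) + W.dim (F.gen Y) + 1 := T.dim_eq
      omega
  exact ⟨fun S X Y hN => (key S X Y hN).1, fun S X Y hN => (key S X Y hN).2⟩

/-! ### From the variational Tate conjecture to the Künneth projectors -/

include hF in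
/-- diagonal matrices which depend on the degree only are flat -/
theorem flat_diag {n : ℕ} {S : F.Base n} (X : F.Fam S) (φ : ℕ → K) :
    F.Flat X X 0 (Matrix.diagonal fun a => φ (W.deg (F.gen X) a)) ∧
    F.at0 X X (Matrix.diagonal fun a => φ (W.deg (F.gen X) a)) =
      Matrix.diagonal fun a => φ (W.deg (F.fib X) a) := by
  have key : ∀ {m l : ℕ} (A : W.Var m) (B : W.Var l) (g : W.Hom A B), W.HasDeg 0 g →
      (Matrix.diagonal fun a => φ (W.deg B a)) * (g : Matrix _ _ K) =
        g * Matrix.diagonal fun a => φ (W.deg A a) := by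
    intro m l A B g hg
    ext b a
    rw [Matrix.diagonal_mul, Matrix.mul_diagonal]
    by_cases h0 : g b a = 0
    · rw [h0, mul_zero, zero_mul]
    · have h1 := hg b a h0
      have h2 : W.deg B b = W.deg A a := by omega
      rw [h2, mul_comm]
  refine ⟨⟨?_, fun g => (key _ _ _ (hF.rho_deg X g).2).symm⟩, ?_⟩
  · intro b a hba
    by_cases hab : b = a
    · subst hab
      ring
    · rw [Matrix.diagonal_apply_ne _ hab] at hba
      exact absurd rfl hba
  · show F.sp X * (Matrix.diagonal fun a => φ (W.deg (F.gen X) a)) * F.cosp X = _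
    rw [← key _ _ _ (hF.sp_deg X), Matrix.mul_assoc]
    have h1 : F.sp X * F.cosp X = 1 := hF.right_inv X
    rw [h1, Matrix.mul_one]

include hF in
/-- every variety over `F (n + 1)` is the geometric generic fibre of a family -/
theorem exists_fam (h : W.Theory) {n : ℕ} (X : W.Var (n + 1)) :
    ∃ (S : F.Base n) (Z : F.Fam S), F.gen Z = X := by
  obtain ⟨L, hL⟩ := h.lefschetz.nonempty X
  obtain ⟨S, Z, N, -, hZ⟩ := hF.spread X L hL
  exact ⟨S, Z, congrArg Sigma.fst hZ⟩

include h hF in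
/-- the Künneth projectors, from the variational Tate conjecture -/
theorem c_of_variational : ∀ n d : ℕ, (∀ m < n, F.Variational m (2 * d)) →
    ∀ X : W.Var n, W.dim X = d → W.C X := by
  intro n
  induction n with
  | zero => exact fun d _ X _ i => h.katzMessing X i
  | succ n ih =>
    intro d hv X hX i
    obtain ⟨S, Z, rfl⟩ := exists_fam hF h X
    obtain ⟨h1, h2⟩ := flat_diag hF Z fun j => if j = i then 1 else 0
    refine hv n (Nat.lt_succ_self n) S Z Z (by omega) 0 _ h1 ?_
    show F.at0 Z Z (Matrix.diagonal fun a => if W.deg (F.gen Z) a = i then (1 : K) else 0) ∈ _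
    rw [h2]
    exact ih d (fun m hm => hv m (by omega)) (F.fib Z) (by rw [hF.dim_fib, hX]) i

end Pool.Agent.H3.VTC
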