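import Pool.Agent.H3.VTC.Lift
import Pool.Agent.H3.VTC.Desc

/-!
# The models, and the equivalence
-/

set_option autoImplicit false

open Matrix

namespace Pool.Agent.H3.VTC

open Pool.Agent.H64.CC Pool.Agent.H64.CC.STP

variable {K : Type} [Field K] [CharZero K] {W : Weil K} (h : W.Theory) {F : Families W}
  (hF : F.Theory)

include h hF in
/-- the sign conjecture, from the variational Tate conjecture with coefficients in `K` -/
theorem cplus_of_variationalK (n d : ℕ) (hv : ∀ m < n, F.VariationalK m (2 * d)) (X : W.Var n)
    (hX : W.dim X = d) : W.Cplus X := by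
  refine cplus_of_cplusK W h X ?_
  induction n with
  | zero => exact Submodule.subset_span (cplus_of_c (toTheory W h) X fun i => h.katzMessing X i)
  | succ n ih =>
    obtain ⟨S, Z, rfl⟩ := exists_fam hF h X
    obtain ⟨h1, h2⟩ := flat_diag hF Z fun j => if Even j then 1 else 0
    refine hv n (Nat.lt_succ_self n) S Z Z (by omega) 0 _ h1 ?_
    show F.at0 Z Z (Matrix.diagonal fun a => if Even (W.deg (F.gen Z) a) then (1 : K) else 0) ∈ _
    rw [h2]
    exact ih (fun m hm => hv m (by omega)) (F.fib Z) (by rw [hF.dim_fib, hX])

include hF in
/-- the families give the models -/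
theorem models_of : W.Models := by
  intro n X L hL
  obtain ⟨S, Z, N, hN, hZ⟩ := hF.spread X L hL
  have key : ∀ P : (Σ Y : W.Var (n + 1), W.Hom Y Y),
      (⟨F.gen Z, N⟩ : Σ Y : W.Var (n + 1), W.Hom Y Y) = P →
      ∃ (D : W.Family P.1 P.2) (V : W.Var n), Nonempty (W.Square D V) := by
    rintro P rfl
    obtain ⟨V, ⟨T⟩⟩ := hF.total Z Z
    refine ⟨{ X₀ := F.fib Z
              s := F.sp Z
              s' := F.cosp Z
              mon := Set.range (F.rho Z)
              dim_eq := hF.dim_fib Z
              left_inv := hF.left_inv Z
              right_inv := hF.right_inv Z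
              s_deg := hF.sp_deg Z
              s_Lef := hF.amp_fib Z N hN
              mon_prop := ?_ }, V, ⟨{ M := T.M
                                      h := T.h
                                      j := T.j
                                      k := T.k
                                      dim_eq := ?_
                                      fib := T.fib
                                      j_lin := T.j_lin
                                      k_lin := T.k_lin
                                      j_alg := T.j_alg
                                      k_alg := T.k_alg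
                                      j_zero := T.j_zero
                                      fixed := ?_ }⟩⟩
    · rintro _ ⟨g, rfl⟩
      exact ⟨(hF.rho_deg Z g).1, (hF.rho_deg Z g).2, hF.amp_rho Z N hN g⟩
    · have h1 : W.dim V = W.dim (F.gen Z) + W.dim (F.gen Z) + 1 := T.dim_eq
      show W.dim V = 2 * W.dim (F.gen Z) + 1
      omega
    · intro r f hf hg
      exact T.fixed r f ⟨hf, fun g => hg _ ⟨g, rfl⟩⟩
  exact key ⟨X, L⟩ hZ

include h hF in
/-- the variational Tate conjecture in bounded dimension, from the sign conjecture -/
theorem variational_of_cplus (hS : W.Sections) (n N : ℕ)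
    (H : ∀ (m : ℕ) (T : W.Var m), Odd (W.dim T) → W.dim T + 3 ≤ 2 ^ (n + 1) * (N + 2) →
      W.Cplus T) : F.Variational n N ∧ F.VariationalK n N := by
  refine variational_of_b h hF n N fun V hV => ?_
  refine graded' W h hS (models_of hF) n (W.dim V) (fun m T hT hd => H m T hT ?_) V rfl
  refine hd.trans (Nat.mul_le_mul_left _ (by omega))

include h hF in
/-- the equivalence -/
theorem main_tfae (hS : W.Sections) :
    List.TFAE [
      ∀ (n : ℕ) (X : W.Var n), W.Cplus X,
      ∀ Z : W.Var 0, W.B Z,
      ∀ (n : ℕ) (X : W.Var n), W.C X ∧ W.B X,
      ∀ n N : ℕ, F.Variational n N,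
      ∀ n N : ℕ, F.VariationalK n N] := by
  have h0 := main' W h hS (models_of hF)
  tfae_have 1 ↔ 2 := h0.out 0 1
  tfae_have 1 ↔ 3 := h0.out 0 2
  tfae_have 3 → 4 := fun H n N => (variational_of_b h hF n N fun V _ => H n V).1
  tfae_have 3 → 5 := fun H n N => (variational_of_b h hF n N fun V _ => H n V).2
  tfae_have 4 → 1 := fun H n X => cplus_of_c (toTheory W h) X
    (c_of_variational h hF n (W.dim X) (fun m _ => H m _) X rfl)
  tfae_have 5 → 1 := fun H n X => cplus_of_variationalK h hF n (W.dim X) (fun m _ => H m _) X rfl
  tfae_finish

end Pool.Agent.H3.VTC
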